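import Pool.Agent.H796R3.AO.Stmts

set_option autoImplicit false

/-! Task A of the project H796AO. -/

namespace Pool.Agent.H580R3.AOTaskA

open Pool.Agent.H796R3.AO

theorem sum_split {W : Type} [Fintype W] {l l1 l2 : List W} {e : W} (hl : l = l1 ++ e :: l2)
    (hnd : l.Nodup) (hall : ∀ w, w ∈ l) (f g : W → ℕ) (h0 : f e = 0) (h1 : ∀ u ∈ l1, f u = g u)
    (h2 : ∀ u ∈ l2, f u = 0) : ∑ u, f u = (l1.map g).sum := by
  classical
  have hu : (Finset.univ : Finset W) = l.toFinset := by
    ext w
    simp [hall w]
  rw [hu, List.sum_toFinset f hnd, hl, List.map_append, List.sum_append, List.map_cons,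
    List.sum_cons, h0, zero_add]
  have e1 : l1.map f = l1.map g := List.map_congr_left h1
  have e2 : (l2.map f).sum = 0 := by
    rw [List.sum_eq_zero_iff]
    intro x hx
    rw [List.mem_map] at hx
    obtain ⟨u, hu, rfl⟩ := hx
    exact h2 u hu
  rw [e1, e2, add_zero]

theorem linext {W : Type} [Fintype W] (R : W → W → Prop) (hirr : ∀ a, ¬ R a a)
    (htr : ∀ a b c, R a b → R b c → R a c) (S : Finset W) :
    ∃ l : List W, l.Nodup ∧ (∀ w, w ∈ l ↔ w ∈ S) ∧ l.Pairwise (fun a b => ¬ R b a) := by
  classical
  have hwf : WellFounded (flip R) := by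
    haveI : IsTrans W (flip R) := ⟨fun a b c h1 h2 => htr c b a h2 h1⟩
    haveI : Std.Irrefl (flip R) := ⟨fun a h => hirr a h⟩
    exact Finite.wellFounded_of_trans_of_irrefl (flip R)
  induction S using Finset.strongInduction with
  | H S ih =>
    rcases S.eq_empty_or_nonempty with rfl | hne
    · exact ⟨[], List.nodup_nil, by simp, List.Pairwise.nil⟩
    · obtain ⟨e, heS, he⟩ := hwf.has_min (S : Set W) hne
      obtain ⟨l, hnd, hmem, hp⟩ := ih (S.erase e) (Finset.erase_ssubset heS)
      refine ⟨l ++ [e], ?_, ?_, ?_⟩
      · rw [List.nodup_append]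
        refine ⟨hnd, List.nodup_singleton e, ?_⟩
        intro a ha b hb hab
        rw [List.mem_singleton] at hb
        subst hb
        subst hab
        exact (Finset.mem_erase.1 ((hmem a).1 ha)).1 rfl
      · intro w
        rw [List.mem_append, List.mem_singleton, hmem, Finset.mem_erase]
        constructor
        · rintro (h | rfl)
          · exact h.2
          · exact heS
        · intro h
          by_cases hw : w = e
          · exact Or.inr hw
          · exact Or.inl ⟨hw, h⟩
      · rw [List.pairwise_append]
        refine ⟨hp, List.pairwise_singleton _ _, ?_⟩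
        intro a ha b hb
        rw [List.mem_singleton] at hb
        subst hb
        exact he a (Finset.mem_erase.1 ((hmem a).1 ha)).2

theorem taskA : TaskA := by
  classical
  intro W _ G T
  constructor
  · rintro ⟨d, ho, hac, hodd⟩
    obtain ⟨l, hnd, hmem, hp⟩ := linext (Relation.TransGen (fun a b => 0 < d a b)) hac
      (fun a b c h1 h2 => h1.trans h2) Finset.univ
    have hall : ∀ w, w ∈ l := fun w => (hmem w).2 (Finset.mem_univ w)
    refine ⟨l, hnd, hall, ?_⟩
    intro l1 e l2 hl
    rw [← hodd e]
    rw [hl, List.pairwise_append, List.pairwise_cons] at hp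
    obtain ⟨-, ⟨hp2, -⟩, hp3⟩ := hp
    rw [sum_split hl hnd hall (fun u => d u e) (fun u => G.m u e)]
    · have := ho e e
      rw [G.loopless] at this
      omega
    · intro u hu
      have h1 := hp3 u hu e (List.mem_cons_self)
      have h2 : d e u = 0 := by
        by_contra h
        exact h1 (Relation.TransGen.single (Nat.pos_of_ne_zero h))
      have := ho u e
      show d u e = G.m u e
      omega
    · intro u hu
      have h1 := hp2 u hu
      by_contra h
      exact h1 (Relation.TransGen.single (Nat.pos_of_ne_zero h))
  · rintro ⟨l, hnd, hall, hl⟩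
    refine ⟨fun u v => if l.idxOf u < l.idxOf v then G.m u v else 0, ?_, ?_, ?_⟩
    · intro u v
      by_cases huv : u = v
      · subst huv
        simp [G.loopless]
      · have hne : l.idxOf u ≠ l.idxOf v := by
          intro h
          exact huv ((List.idxOf_inj (hall u)).1 h)
        rcases lt_or_gt_of_ne hne with h | h
        · simp [h, not_lt.2 h.le]
        · simp [h, not_lt.2 h.le, G.symm v u]
    · intro v hv
      have key : ∀ a b, Relation.TransGen
          (fun a b => 0 < (if l.idxOf a < l.idxOf b then G.m a b else 0)) a b →
          l.idxOf a < l.idxOf b := by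
        intro a b h
        induction h with
        | single h =>
          by_contra hc
          simp [hc] at h
        | tail _ h ih =>
          refine lt_trans ih ?_
          by_contra hc
          simp [hc] at h
      exact lt_irrefl _ (key v v hv)
    · intro e
      obtain ⟨l1, l2, hl12⟩ := List.append_of_mem (hall e)
      rw [← hl l1 e l2 hl12]
      have hnd' := hnd
      rw [hl12, List.nodup_append] at hnd'
      obtain ⟨hn1, hn2, hn3⟩ := hnd'
      rw [List.nodup_cons] at hn2
      have he1 : e ∉ l1 := fun h => hn3 e h e List.mem_cons_self rfl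
      have hidx : l.idxOf e = l1.length := by
        rw [hl12, List.idxOf_append_of_notMem he1, List.idxOf_cons_self, add_zero]
      rw [sum_split hl12 hnd hall (fun u => if l.idxOf u < l.idxOf e then G.m u e else 0)
        (fun u => G.m u e)]
      · simp
      · intro u hu
        have h1 : l.idxOf u < l.idxOf e := by
          rw [hidx, hl12, List.idxOf_append_of_mem hu]
          exact List.idxOf_lt_length_of_mem hu
        simp [h1]
      · intro u hu
        have h1 : ¬ l.idxOf u < l.idxOf e := by
          have hu1 : u ∉ l1 := fun h => hn3 u h u (List.mem_cons_of_mem _ hu) rfl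
          rw [hidx, hl12, List.idxOf_append_of_notMem hu1]
          omega
        simp [h1]

end Pool.Agent.H580R3.AOTaskA
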