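import Pool.Agent.H580R3.Clock

/-!
Clocked simulation of Mathlib stack machines: the whole program.
-/

set_option autoImplicit false

namespace Pool.Agent.H580R3.Clock

open Turing Pool.Agent.NPC Pool.Agent.H642R2.TMSim
open Function (update)

theorem ex_nil_fun (z : List Bool) : ex z (fun _ => []) = inp z := by
  funext i
  cases i with
  | zero => simp [inp]
  | succ i => simp [inp]

/-- **Clocked simulation.** If the machine `tm` started on the input `t a` outputs `f a` after
exactly `τ a` steps, then the function which maps `(t a, u a)` to `some (f a)` if `τ a` is at most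
the size of `u a`, and to `none` otherwise, is computable in polynomial time. -/
theorem clocked {α β : Type} [TEnc β] (t : α → T) (u : α → T) (f : α → β) (tm : FinTM2)
    (ι : tm.Γ tm.k₀ ≃ Bool) (κ : tm.Γ tm.k₁ ≃ Bool) (τ : α → ℕ)
    (hτ : ∀ a, (flip bind (TM2.step tm.m))^[τ a]
      (some (initList tm ((t a).enc.map ι.symm))) =
      some (haltList tm ((bits (f a)).map κ.symm))) :
    PC (fun a => (T.node (t a) (u a)).enc) (bits : Option β → List Bool)
      (fun a => if τ a ≤ (u a).size then some (f a) else none) := by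
  have := tm.kFin
  have := tm.ΛFin
  have := tm.σFin
  have := tm.Γk₀Fin
  let A : Set (Σ k, tm.Γ k) := (⋃ l, pushes (tm.m l)) ∪ Set.range (fun a => ⟨tm.k₀, a⟩)
  have hA : A.Finite := by
    refine Set.Finite.union (Set.finite_iUnion fun l => pushes_finite _) ?_
    exact Set.finite_range _
  obtain ⟨b, hb, ⟨C⟩⟩ := exists_cod A hA
  obtain ⟨bs, hbs, ⟨D⟩⟩ := exists_cod (Set.univ : Set (tm.Λ × tm.σ)) Set.finite_univ
  obtain ⟨B, hB⟩ : ∃ B, ∀ l, cst b bs (tm.m l) ≤ B := by
    obtain ⟨B, hB⟩ := (Set.finite_range (fun l => cst b bs (tm.m l))).bddAbove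
    exact ⟨B, fun l => hB ⟨l, rfl⟩⟩
  have hm : ∀ l, pushes (tm.m l) ⊆ A := fun l x hx => Or.inl (Set.mem_iUnion.2 ⟨l, hx⟩)
  let regs : List ℕ := (Finset.univ : Finset tm.K).toList.map (fun k => idx k + 1)
  let pre : Cmd ℕ := Cmd.seq split (Cmd.seq (sh (mv 0 1)) (Cmd.seq (sh (mv 1 2))
    (Cmd.seq (sh (inLoop A C tm.k₀ ι.symm)) (Cmd.seq (sh (wr 1 (D.code (tm.main, tm.initialState))))
      (Cmd.loop 2 (cbody A C D tm.m))))))
  let nrm : Cmd ℕ := Cmd.seq (clr 0) (Cmd.seq (Cmd.push 0 false)
    (Cmd.seq (sh (outLoop A C tm.k₁ κ)) (Cmd.seq (mv 3 0) (Cmd.push 0 true))))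
  let tmo : Cmd ℕ := Cmd.seq (Cmd.pop 3) (Cmd.seq (clrs regs) (Cmd.push 0 false))
  let c := 2 * bs + B + 4
  let N1 : ℕ → ℕ := fun L => 5 * L + 3 + (4 * L + 1) + (4 * L + 1) + ((b + 4) * L + 1) + (bs + 1) +
    ((L + 1) * c + 2)
  let N2 : ℕ → ℕ := fun L => N1 L + 10 + 2 * L + (2 * b + 6) * (L + N1 L) +
    (2 * (L + N1 L) + 1) * regs.length
  have hpoly : ∃ p : Polynomial ℕ, ∀ L, N2 L = p.eval L := by
    refine ⟨(Polynomial.C 5 * Polynomial.X + Polynomial.C 3 + (Polynomial.C 4 * Polynomial.X + 1) +
      (Polynomial.C 4 * Polynomial.X + 1) + (Polynomial.C (b + 4) * Polynomial.X + 1) +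
      Polynomial.C (bs + 1) + ((Polynomial.X + 1) * Polynomial.C c + Polynomial.C 2)) +
      Polynomial.C 10 + Polynomial.C 2 * Polynomial.X + Polynomial.C (2 * b + 6) *
      (Polynomial.X + (Polynomial.C 5 * Polynomial.X + Polynomial.C 3 +
      (Polynomial.C 4 * Polynomial.X + 1) +
      (Polynomial.C 4 * Polynomial.X + 1) + (Polynomial.C (b + 4) * Polynomial.X + 1) +
      Polynomial.C (bs + 1) + ((Polynomial.X + 1) * Polynomial.C c + Polynomial.C 2))) +
      (Polynomial.C 2 * (Polynomial.X + (Polynomial.C 5 * Polynomial.X + Polynomial.C 3 +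
      (Polynomial.C 4 * Polynomial.X + 1) +
      (Polynomial.C 4 * Polynomial.X + 1) + (Polynomial.C (b + 4) * Polynomial.X + 1) +
      Polynomial.C (bs + 1) + ((Polynomial.X + 1) * Polynomial.C c + Polynomial.C 2))) + 1) *
      Polynomial.C regs.length, fun L => ?_⟩
    simp only [Polynomial.eval_add, Polynomial.eval_mul, Polynomial.eval_C, Polynomial.eval_X,
      Polynomial.eval_one]
    rfl
  obtain ⟨p, hp⟩ := hpoly
  refine ⟨Cmd.seq pre (Cmd.cases 3 nrm Cmd.skip tmo), p, fun a => ?_⟩
  rw [← hp]
  set x : List Bool := (T.node (t a) (u a)).enc with hx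
  set L := x.length with hL
  have hLt : (t a).enc.length ≤ L := by rw [hL, hx]; simp [T.enc]; omega
  have hLu : (u a).enc.length ≤ L := by rw [hL, hx]; simp [T.enc]; omega
  have hN1 : N1 L = 5 * L + 3 + (4 * L + 1) + (4 * L + 1) + ((b + 4) * L + 1) + (bs + 1) +
    ((L + 1) * c + 2) := rfl
  have hN2 : N2 L = N1 L + 10 + 2 * L + (2 * b + 6) * (L + N1 L) +
    (2 * (L + N1 L) + 1) * regs.length := rfl
  have hn1 := hτ a
  rw [initList_stk, haltList_stk] at hn1
  set n := τ a with hn
  have hgood : Good A (one tm.k₀ (List.map ι.symm (t a).enc)) := by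
    intro k x hx
    by_cases hk : k = tm.k₀
    · subst hk; exact Or.inr ⟨x, rfl⟩
    · rw [one, Function.update_of_ne hk] at hx; simp at hx
  obtain ⟨hmain1, hmain2⟩ := clocked_runs A C D tm.m hb hbs hm B hB n (u a).enc _ _ _ hgood hn1
  -- the input part
  have r0 : Runs split (inp x) (ex (u a).enc (inp (t a).enc.reverse)) (5 * L + 3) := by
    refine (split_runs (t a) (u a)).conv ?_ ?_ ?_
    · rw [hx, inp_eq_st]
    · funext i
      match i with
      | 0 => rfl
      | 1 => simp [inp]
      | 2 => simp [inp, ex]
      | i + 3 => simp [inp, ex, st]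
    · have : (t a).size = (t a).enc.length := rfl
      omega
  have r1 : Runs (sh (mv 0 1)) (ex (u a).enc (inp (t a).enc.reverse))
      (ex (u a).enc (update (fun _ => []) 1 (t a).enc)) (4 * L + 1) := by
    refine (sh_runs (mv_runs (i := 0) (j := 1) (by decide) (t a).enc.reverse (inp (t a).enc.reverse)
      (update (fun _ => []) 1 (t a).enc) (by simp [inp]) ?_) _).mono ?_
    · simp [inp]
    · rw [List.length_reverse]; omega
  have r2 : Runs (sh (mv 1 2)) (ex (u a).enc (update (fun _ => []) 1 (t a).enc))
      (ex (u a).enc (update (R A C [] (one tm.k₀ [])) 2 (t a).enc.reverse)) (4 * L + 1) := by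
    refine (sh_runs (mv_runs (i := 1) (j := 2) (by decide) (t a).enc
      (update (fun _ => []) 1 (t a).enc)
      (update (R A C [] (one tm.k₀ [])) 2 (t a).enc.reverse) (by simp) ?_) _).mono (by omega)
    have : one (Γ := tm.Γ) tm.k₀ [] = fun _ => [] := Function.update_eq_self tm.k₀ _
    rw [this, R_empty]
    simp
  have r3 := sh_runs (inLoop_runs A C tm.k₀ ι.symm (t a).enc.reverse []) (u a).enc
  rw [List.append_nil, List.map_reverse, List.reverse_reverse] at r3
  have r3' : Runs (sh (inLoop A C tm.k₀ ι.symm))
      (ex (u a).enc (update (R A C [] (one tm.k₀ [])) 2 (t a).enc.reverse))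
      (ex (u a).enc (R A C [] (one tm.k₀ (List.map ι.symm (t a).enc)))) ((b + 4) * L + 1) :=
    r3.mono (by rw [List.length_reverse]; nlinarith)
  have r4 : Runs (sh (wr 1 (D.code (tm.main, tm.initialState))))
      (ex (u a).enc (R A C [] (one tm.k₀ (List.map ι.symm (t a).enc))))
      (ex (u a).enc (R A C (D.code (tm.main, tm.initialState))
        (one tm.k₀ (List.map ι.symm (t a).enc)))) (bs + 1) := by
    refine sh_runs ((wr_runs _ _).conv rfl ?_ (by rw [D.len])) _
    rw [R_one, List.append_nil, R_update_one]
  have hinp0 : ∀ i : ℕ, ((inp x : ℕ → List Bool) i).length ≤ L := by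
    intro i
    by_cases h : i = 0
    · subst h; simp [inp, hL]
    · simp [inp, h]
  change Runs (Cmd.seq pre (Cmd.cases 3 nrm Cmd.skip tmo)) (inp x)
    (inp (bits (if n ≤ (u a).size then some (f a) else none))) (N2 L)
  by_cases hcase : n ≤ (u a).enc.length
  · -- the machine halts in time
    obtain ⟨hg', hmain⟩ := hmain1 hcase
    have hmain' : Runs (Cmd.loop 2 (cbody A C D tm.m))
        (ex (u a).enc (R A C (D.code (tm.main, tm.initialState))
          (one tm.k₀ (List.map ι.symm (t a).enc))))
        (ex (List.drop n (u a).enc) (R A C [] (one tm.k₁ (List.map κ.symm (bits (f a))))))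
        ((L + 1) * c + 2) := by
      refine hmain.mono ?_
      have : n * c ≤ (L + 1) * c := Nat.mul_le_mul_right _ (by omega)
      have e : n * (2 * bs + B + 4) = n * c := rfl
      omega
    have hpre : Runs pre (inp x) (ex (List.drop n (u a).enc)
        (R A C [] (one tm.k₁ (List.map κ.symm (bits (f a)))))) (N1 L) :=
      (r0.seq (r1.seq (r2.seq (r3'.seq (r4.seq hmain'))))).mono (by rw [hN1]; omega)
    -- length of the output
    have hlen : (bits (f a)).length ≤ L + N1 L := by
      obtain ⟨t', ht, hr⟩ := hpre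
      have h1 := hr.length_le (idx tm.k₁ + 1)
      have h2 := hinp0 (idx tm.k₁ + 1)
      rw [ex_succ, R_idx] at h1
      have e7 : ∀ l : List (tm.Γ tm.k₁), (encS A C tm.k₁ l).length = b * l.length := by
        intro l
        induction l with
        | nil => simp [encS]
        | cons x l ih =>
          have : encS A C tm.k₁ (x :: l) = C.code ⟨tm.k₁, x⟩ ++ encS A C tm.k₁ l := by
            simp [encS]
          rw [this, List.length_append, C.len, ih, List.length_cons]; ring
      rw [e7] at h1
      have e8 : (one tm.k₁ (List.map κ.symm (bits (f a))) tm.k₁).length = (bits (f a)).length := by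
        rw [one, Function.update_self, List.length_map]
      rw [e8] at h1
      have e10 : (bits (f a)).length ≤ b * (bits (f a)).length := Nat.le_mul_of_pos_left _ hb
      omega
    have s1 : Runs (clr 0) (ex (List.drop n (u a).enc)
        (R A C [] (one tm.k₁ (List.map κ.symm (bits (f a))))))
        (ex [] (R A C [] (one tm.k₁ (List.map κ.symm (bits (f a)))))) (2 * L + 1) := by
      refine (clr_runs (i := 0) _ _ _ rfl ?_).mono ?_
      · rw [update_ex_zero]
      · rw [ex_zero, List.length_drop]; omega
    have s2 : Runs (Cmd.push 0 false)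
        (ex [] (R A C [] (one tm.k₁ (List.map κ.symm (bits (f a))))))
        (ex [false] (R A C [] (one tm.k₁ (List.map κ.symm (bits (f a)))))) 1 := by
      refine (Runs.push _ 0 false).conv rfl ?_ le_rfl
      rw [update_ex_zero, ex_zero]
    have r5 := outLoop_runs A C hb tm.k₁ κ
      (List.map κ.symm (bits (f a))) [] (by
        intro x hx
        have := hg' tm.k₁ x
        rw [one, Function.update_self] at this
        exact this hx)
    have e5 : update (R A C [] (one tm.k₁ (List.map κ.symm (bits (f a))))) 2 [] =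
        R A C [] (one tm.k₁ (List.map κ.symm (bits (f a)))) := by
      have := Function.update_eq_self 2
        (R A C [] (one tm.k₁ (List.map κ.symm (bits (f a)))))
      rwa [R_two] at this
    rw [e5, List.append_nil, List.map_map] at r5
    have e6 : (⇑κ ∘ κ.symm) = id := by
      funext x; exact κ.apply_symm_apply x
    rw [e6, List.map_id, List.length_map] at r5
    have s3 : Runs (sh (outLoop A C tm.k₁ κ))
        (ex [false] (R A C [] (one tm.k₁ (List.map κ.symm (bits (f a))))))
        (ex [false] (update (fun _ => []) 2 (bits (f a)).reverse))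
        ((2 * b + 2) * (L + N1 L) + 1) :=
      (sh_runs r5 _).mono (by
        have := Nat.mul_le_mul_left (2 * b + 2) hlen
        omega)
    have s4 : Runs (mv 3 0) (ex [false] (update (fun _ => []) 2 (bits (f a)).reverse))
        (ex (bits (f a) ++ [false]) (fun _ => [])) (4 * (L + N1 L) + 1) := by
      refine (mv_runs (i := 3) (j := 0) (by decide) (bits (f a)).reverse _ _ ?_ ?_).mono ?_
      · rw [show (3 : ℕ) = 2 + 1 from rfl, ex_succ, Function.update_self]
      · rw [show (3 : ℕ) = 2 + 1 from rfl, update_ex_succ, Function.update_idem, update_ex_zero,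
          List.reverse_reverse, ex_zero]
        congr 1
        exact (Function.update_eq_self 2 (fun _ => ([] : List Bool))).symm
      · rw [List.length_reverse]; omega
    have s5 : Runs (Cmd.push 0 true) (ex (bits (f a) ++ [false]) (fun _ => []))
        (inp (bits (some (f a)))) 1 := by
      refine (Runs.push _ 0 true).conv rfl ?_ le_rfl
      rw [update_ex_zero, ex_zero, ex_nil_fun]
      rfl
    have hnrm := s1.seq (s2.seq (s3.seq (s4.seq s5)))
    have hfin := hpre.seq (Runs.casesNil (k := 3) (cf := Cmd.skip) (ct := tmo) (by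
      rw [show (3 : ℕ) = 2 + 1 from rfl, ex_succ, R_two]) hnrm)
    have hif : (if n ≤ (u a).size then some (f a) else none) = some (f a) := if_pos hcase
    rw [hif]
    refine hfin.mono ?_
    rw [hN2]
    have : (2 * b + 2) * (L + N1 L) + 4 * (L + N1 L) = (2 * b + 6) * (L + N1 L) := by ring
    omega
  · -- time out
    obtain ⟨S'', hmain⟩ := hmain2 (by omega)
    have hmain' : Runs (Cmd.loop 2 (cbody A C D tm.m))
        (ex (u a).enc (R A C (D.code (tm.main, tm.initialState))
          (one tm.k₀ (List.map ι.symm (t a).enc))))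
        (ex [] (update (R A C [] S'') 2 [true])) ((L + 1) * c + 2) := by
      refine hmain.mono ?_
      have : ((u a).enc.length + 1) * c ≤ (L + 1) * c := Nat.mul_le_mul_right _ (by omega)
      have e : ((u a).enc.length + 1) * (2 * bs + B + 4) = ((u a).enc.length + 1) * c := rfl
      omega
    have hpre : Runs pre (inp x) (ex [] (update (R A C [] S'') 2 [true])) (N1 L) :=
      (r0.seq (r1.seq (r2.seq (r3'.seq (r4.seq hmain'))))).mono (by rw [hN1]; omega)
    have s1 : Runs (Cmd.pop 3) (ex [] (update (R A C [] S'') 2 [true]))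
        (ex [] (R A C [] S'')) 1 := by
      refine (Runs.pop _ 3).conv rfl ?_ le_rfl
      rw [show (3 : ℕ) = 2 + 1 from rfl, update_ex_succ, ex_succ, Function.update_self,
        Function.update_idem]
      congr 1
      have := Function.update_eq_self 2 (R A C [] S'')
      rwa [R_two] at this
    have hlen : ∀ i, (ex [] (R A C [] S'') i).length ≤ L + N1 L := by
      intro i
      obtain ⟨t', ht, hr⟩ := hpre
      have h1 := hr.length_le i
      have h2 := hinp0 i
      cases i with
      | zero => simp
      | succ j =>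
        rw [ex_succ] at h1 ⊢
        by_cases hj : j = 2
        · subst hj; rw [R_two]; simp
        · rw [Function.update_of_ne hj] at h1
          omega
    have s2 := clrs_runs (L + N1 L) regs (ex [] (R A C [] S'')) hlen
    have e1 : (fun i => if i ∈ regs then [] else ex [] (R A C [] S'') i) = fun _ => [] := by
      funext i
      by_cases h : i ∈ regs
      · rw [if_pos h]
      · rw [if_neg h]
        cases i with
        | zero => rfl
        | succ j =>
          rw [ex_succ]
          by_cases h1 : j = 1
          · subst h1; rw [R_one]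
          · refine R_other _ _ _ _ _ h1 (fun k hk => h ?_)
            rw [List.mem_map]
            exact ⟨k, by simp, by rw [hk]⟩
    classical
    have s2' : Runs (clrs regs) (ex [] (R A C [] S'')) (fun _ => [])
        ((2 * (L + N1 L) + 1) * regs.length + 1) := by
      refine s2.conv rfl ?_ le_rfl
      rw [← e1]
    have s3 : Runs (Cmd.push 0 false) (fun _ => []) (inp (bits (none : Option β))) 1 := by
      refine (Runs.push _ 0 false).conv rfl ?_ le_rfl
      rfl
    have hfin := hpre.seq (Runs.casesTrue (k := 3) (l := []) (c₀ := nrm) (cf := Cmd.skip) (by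
      rw [show (3 : ℕ) = 2 + 1 from rfl, ex_succ, Function.update_self])
      (s1.seq (s2'.seq s3)))
    have hif : (if n ≤ (u a).size then some (f a) else none) = none := if_neg hcase
    rw [hif]
    refine hfin.mono ?_
    rw [hN2]
    omega

end Pool.Agent.H580R3.Clock
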