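import Pool.Agent.H642R2.TMSim

/-!
Clocked simulation of Mathlib stack machines by programs of the structured stack language: run a
given machine on a given input for a given number of steps.
-/

set_option autoImplicit false

namespace Pool.Agent.H580R3.Clock

open Turing Pool.Agent.NPC Pool.Agent.H642R2.TMSim
open Function (update)

/-! ### one more register -/

/-- a register file with the additional register `0` -/
def ex (z : List Bool) (s : ℕ → List Bool) : ℕ → List Bool
  | 0 => z
  | i + 1 => s i

/-- shift of registers -/
def sh (c : Cmd ℕ) : Cmd ℕ := c.map (fun i => i + 1)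

theorem sh_runs {c : Cmd ℕ} {s s' : ℕ → List Bool} {n : ℕ} (h : Runs c s s' n) (z : List Bool) :
    Runs (sh c) (ex z s) (ex z s') n := by
  obtain ⟨t, ht, h⟩ := h
  obtain ⟨S', h1, h2, h3⟩ := h.map (f := fun i => i + 1) (fun a b h => by simpa using h)
    (ex z s) (by funext i; rfl)
  refine ⟨t, ht, ?_⟩
  have : S' = ex z s' := by
    funext i
    cases i with
    | zero => rw [h3 0 (by rintro ⟨a, ha⟩; simp at ha)]; rfl
    | succ i => exact congrFun h2 i
  rw [← this]
  exact h1

@[simp] theorem ex_zero (z : List Bool) (s : ℕ → List Bool) : ex z s 0 = z := rfl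
@[simp] theorem ex_succ (z : List Bool) (s : ℕ → List Bool) (i : ℕ) : ex z s (i + 1) = s i := rfl

theorem update_ex_zero (z y : List Bool) (s : ℕ → List Bool) : update (ex z s) 0 y = ex y s := by
  funext i
  cases i with
  | zero => simp
  | succ i => simp [Function.update_of_ne]

theorem update_ex_succ (z y : List Bool) (s : ℕ → List Bool) (k : ℕ) :
    update (ex z s) (k + 1) y = ex z (update s k y) := by
  funext i
  cases i with
  | zero => simp [Function.update_of_ne]
  | succ i =>
    by_cases h : i = k
    · subst h; simp
    · rw [Function.update_of_ne (by omega), ex_succ, ex_succ, Function.update_of_ne h]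

/-! ### clearing registers -/

/-- clear all the registers of a list -/
def clrs : List ℕ → Cmd ℕ
  | [] => Cmd.skip
  | i :: l => Cmd.seq (clr i) (clrs l)

open Classical in
theorem clrs_runs (M : ℕ) : ∀ (l : List ℕ) (s : ℕ → List Bool), (∀ i, (s i).length ≤ M) →
    Runs (clrs l) s (fun i => if i ∈ l then [] else s i) ((2 * M + 1) * l.length + 1) := by
  intro l
  induction l with
  | nil =>
    intro s _
    refine (Runs.skip s).conv rfl ?_ (by simp)
    funext i; simp
  | cons j l ih =>
    intro s hs
    have h1 := clr_runs (i := j) (s j) s (update s j []) rfl rfl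
    have h2 := ih (update s j []) (by
      intro i
      by_cases h : i = j
      · subst h; simp
      · rw [Function.update_of_ne h]; exact hs i)
    refine (h1.seq h2).conv rfl ?_ ?_
    · funext i
      by_cases h : i ∈ l
      · simp [h]
      · by_cases h' : i = j
        · subst h'; simp
        · simp [h, h', Function.update_of_ne]
    · have := hs j
      simp only [List.length_cons]
      nlinarith

section Sim

variable {K : Type} [DecidableEq K] [Fintype K] {Γ : K → Type} {Λ σ : Type}
variable (A : Set (Σ k, Γ k)) {b : ℕ} (C : Cod A b) {bs : ℕ} (D : Cod (Set.univ : Set (Λ × σ)) bs)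
variable (m : Λ → TM2.Stmt Γ Λ σ)

/-- the body of the clocked loop; the state is in register `2`, the clock in register `0`, and
register `3` is a flag -/
noncomputable def cbody : Cmd ℕ :=
  Cmd.cases 0 (Cmd.seq (clr 2) (Cmd.push 3 true))
    (Cmd.seq (Cmd.pop 0) (sh (body A C D m))) (Cmd.seq (Cmd.pop 0) (sh (body A C D m)))

theorem step_runs (hb : 0 < b) (hm : ∀ l, pushes (m l) ⊆ A) (B : ℕ)
    (hB : ∀ l, cst b bs (m l) ≤ B) (l : Λ) (v : σ) (S : ∀ k, List (Γ k)) (hG : Good A S) :
    Good A (TM2.stepAux (m l) v S).stk ∧ Runs (body A C D m) (R A C (D.code (l, v)) S)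
      (R A C (stc D (TM2.stepAux (m l) v S)) (TM2.stepAux (m l) v S).stk) (2 * bs + B) := by
  obtain ⟨h1, h2⟩ := comp_runs A C D hb (m l) (hm l) v S hG
  refine ⟨h1, ?_⟩
  have h5 := rd_runs (r := 1) (D.code (l, v)) (fun w => match decS D w with
    | none => Cmd.skip
    | some p => comp A C D (m p.1) p.2) [] (R A C (D.code (l, v)) S) _ (cst b bs (m l))
    (by rw [R_one, List.append_nil]) (by
      rw [decS_code, R_update_one]
      exact h2)
  rw [D.len] at h5
  exact h5.mono (by have := hB l; omega)

theorem R_two_update (w : List Bool) (S : ∀ k, List (Γ k)) (y : List Bool) (i : ℕ) (hi : i ≠ 2) :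
    update (R A C w S) 2 y i = R A C w S i := Function.update_of_ne hi _ _

/-- the clocked loop -/
theorem clocked_runs (hb : 0 < b) (hbs : 0 < bs) (hm : ∀ l, pushes (m l) ⊆ A) (B : ℕ)
    (hB : ∀ l, cst b bs (m l) ≤ B) :
    ∀ (n : ℕ) (z : List Bool) (c : TM2.Cfg Γ Λ σ) (v' : σ) (S' : ∀ k, List (Γ k)), Good A c.stk →
      (flip bind (TM2.step m))^[n] (some c) = some ⟨none, v', S'⟩ →
      (n ≤ z.length → Good A S' ∧ Runs (Cmd.loop 2 (cbody A C D m))
        (ex z (R A C (stc D c) c.stk)) (ex (z.drop n) (R A C [] S'))
        (n * (2 * bs + B + 4) + 1)) ∧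
      (z.length < n → ∃ S'', Runs (Cmd.loop 2 (cbody A C D m))
        (ex z (R A C (stc D c) c.stk)) (ex [] (update (R A C [] S'') 2 [true]))
        ((z.length + 1) * (2 * bs + B + 4) + 2)) := by
  intro n
  induction n with
  | zero =>
    intro z c v' S' hG h
    simp only [Function.iterate_zero, id_eq, Option.some.injEq] at h
    subst h
    refine ⟨fun _ => ⟨hG, (Runs.loopNil ?_).conv rfl (by rw [List.drop_zero]; rfl) (by simp)⟩,
      fun h => absurd h (by omega)⟩
    rw [show (2 : ℕ) = 1 + 1 from rfl, ex_succ, R_one]; rfl
  | succ n ih =>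
    intro z c v' S' hG h
    obtain ⟨l, v, S⟩ := c
    cases l with
    | none =>
      rw [Function.iterate_succ_apply] at h
      have h0 : flip bind (TM2.step m) (some (⟨none, v, S⟩ : TM2.Cfg Γ Λ σ)) = none := rfl
      rw [h0] at h
      have h1 : ∀ n, (flip bind (TM2.step m))^[n] (none : Option (TM2.Cfg Γ Λ σ)) = none := by
        intro n
        induction n with
        | zero => rfl
        | succ n ih => rw [Function.iterate_succ_apply]; exact ih
      rw [h1] at h
      exact absurd h (by simp)
    | some l =>
      rw [Function.iterate_succ_apply] at h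
      have h0 : flip bind (TM2.step m) (some (⟨some l, v, S⟩ : TM2.Cfg Γ Λ σ)) =
        some (TM2.stepAux (m l) v S) := rfl
      rw [h0] at h
      have e1 : stc D (⟨some l, v, S⟩ : TM2.Cfg Γ Λ σ) = D.code (l, v) := rfl
      have hne1 : D.code (l, v) ≠ [] := by
        intro h
        have := congrArg List.length h
        rw [D.len] at this
        simp at this
        omega
      have hne : ∀ z, ex z (R A C (D.code (l, v)) S) 2 ≠ [] := by
        intro z
        rw [show (2 : ℕ) = 1 + 1 from rfl, ex_succ, R_one]
        exact hne1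
      cases z with
      | nil =>
        refine ⟨fun h => absurd h (by simp), fun _ => ⟨S, ?_⟩⟩
        rw [e1]
        have h3 : Runs (clr 2) (ex [] (R A C (D.code (l, v)) S)) (ex [] (R A C [] S))
            (2 * (D.code (l, v)).length + 1) := by
          refine clr_runs _ _ _ ?_ ?_
          · rw [show (2 : ℕ) = 1 + 1 from rfl, ex_succ, R_one]
          · rw [show (2 : ℕ) = 1 + 1 from rfl, update_ex_succ, R_update_one]
        have h4 : Runs (Cmd.push 3 true) (ex [] (R A C [] S))
            (ex [] (update (R A C [] S) 2 [true])) 1 := by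
          refine (Runs.push _ 3 true).conv rfl ?_ le_rfl
          rw [show (3 : ℕ) = 2 + 1 from rfl, update_ex_succ, ex_succ, R_two]
        have h5 : Runs (cbody A C D m) (ex [] (R A C (D.code (l, v)) S))
            (ex [] (update (R A C [] S) 2 [true])) (2 * bs + 1 + 1 + 1) := by
          refine (Runs.casesNil rfl (h3.seq h4)).mono ?_
          rw [D.len]
        refine (Runs.loopCons (hne []) h5 (Runs.loopNil ?_)).mono ?_
        · rw [show (2 : ℕ) = 1 + 1 from rfl, ex_succ, Function.update_of_ne (by decide), R_one]
        · simp only [List.length_nil]; nlinarith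
      | cons x z =>
        obtain ⟨h1, h2⟩ := step_runs A C D m hb hm B hB l v S hG
        have h3 : Runs (cbody A C D m) (ex (x :: z) (R A C (D.code (l, v)) S))
            (ex z (R A C (stc D (TM2.stepAux (m l) v S)) (TM2.stepAux (m l) v S).stk))
            (1 + (2 * bs + B) + 1) := by
          have h4 : Runs (Cmd.pop 0) (ex (x :: z) (R A C (D.code (l, v)) S))
              (ex z (R A C (D.code (l, v)) S)) 1 :=
            (Runs.pop _ 0).conv rfl (by rw [update_ex_zero]; rfl) le_rfl
          have h5 := sh_runs h2 z
          cases x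
          · exact Runs.casesFalse (l := z) rfl (h4.seq h5)
          · exact Runs.casesTrue (l := z) rfl (h4.seq h5)
        obtain ⟨h6, h7⟩ := ih z _ v' S' h1 h
        rw [e1]
        refine ⟨fun hn => ?_, fun hn => ?_⟩
        · obtain ⟨h8, h9⟩ := h6 (by simpa using hn)
          refine ⟨h8, (Runs.loopCons (hne _) h3 h9).mono ?_⟩
          nlinarith
        · obtain ⟨S'', h8⟩ := h7 (by simpa using hn)
          refine ⟨S'', (Runs.loopCons (hne _) h3 h8).mono ?_⟩
          simp only [List.length_cons]
          nlinarith

end Sim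

end Pool.Agent.H580R3.Clock
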